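import Pool.Agent.TH122.PA.TriG
import Pool.Agent.U188.ARR.Wt
import Pool.Agent.U188.ARR.Prop

/-!
# Abundance with an explicit index for all abelian covers of projective space of multiplicity `n + 2`

Let `ℓ i = 0` be any `q` hyperplanes in projective `n`-space, `n ≥ 1`, and let `X` be an abelian cover
of projective space,

  `y k ^ m k = ∏ i, ℓ i (x) ^ e k i`,

which is branched over the arrangement with multiplicities at least `n + 2`: whenever the germ of a
curve in projective space lifts to `X` and meets the arrangement, it meets some hyperplane with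
multiplicity at least `n + 2`. Let `V` be a projective manifold birational to `X`. Then exactly one of
the following holds.

* The arrangement is reducible, `V` is birational to `B × ℙ¹`, and `K_V` is not pseudo-effective.
* The arrangement consists of `n + 2` hyperplanes in general position and the multiplicity `n + 2` is
  attained for each of them (germs which meet just one of them, with multiplicity `n + 2`, lift to
  `X`). Then `h⁰ ((n + 2) K_V) = 1`, `h⁰ (m K_V) ≤ 1` for all `m ≥ 1`, and `κ (V) = ν (V) = 0`.
* In all other cases `V` is of general type.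

For the minimal varieties `X'` birational to such covers the problem has a positive answer: in the
third case `K_X'` is nef and big (base point free theorem), and in the second case the linear system
`|(n + 2) K_X'|` contains an effective divisor, which is numerically trivial since `ν = 0`, so that it
is `0` and `(n + 2) K_X'` is Cartier and trivial: `r = n + 2` works (this passage to minimal models is
explained here only, it is not formalized).

In the starting result `MP_5ff3c6_ag.ArrangementCoverAbundance` the arrangements of `n + 2` hyperplanes
in general position were excluded; they are those of the quotients of the Fermat varieties. The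
multiplicities are also defined in a weaker way here: there, all systems of multiplicities `v` were
tested whose hyperplanes have a common point, here only those of germs of curves; for dependent
hyperplanes these are fewer.

The function-field language of the starting repository is used: prime divisors over `X` are the
divisorial places `P` of the function field `K` of `X` (`Divisorial`), `IsPluri m ω` says that `ω` is a
rational section of `m K`, `RegAt P ω` that it is regular at `P`, `NumLe ℂ K n (fun _ => False) 0` that
`ν (V) ≤ 0`: for every divisor `A` (generated by a finite set of functions) the numbers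
`h⁰ (m K_V + A)`, `m ≥ 1`, are bounded; `Psef ℂ K n (fun _ => False)` says that `K_V` is
pseudo-effective, `GeneralType ℂ K n` that `κ (V) = n`, and `Ruled ℂ K` that `V` is birational to
`B × ℙ¹` for some `B`.

The trichotomy with `κ ≥ 0`, `ν ≤ 0` in the second case is the theorem `trichotomyG2` of the folder
`TH122/PA` of the starting library. New are the plurigenera (`Pool/Agent/U188/ARR`): the form
`(dx) ^ (n + 2) / ∏ ℓ ^ (n + 1)` comes from explicit weights on the bases of the arrangement, and
`h⁰ (m K_V) ≤ 1` from the comparison of the powers of two sections with `ν ≤ 0`.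
-/

set_option autoImplicit false

open FF Pool.Agent.W602.Cov Pool.Agent.W602.GT

namespace Pool.Agent.Results.MP_5ff3c6_ag.AllArrangementCovers

/-- The curve `x (t)` meets the hyperplane `φ = 0` with multiplicity `k` at `t = 0`: the order of
vanishing of `φ (x (t))` at `t = 0` is `k`. -/
def Meets {n : ℕ} (x : Fin (n + 1) → Polynomial ℂ) (φ : Form n) (k : ℕ) : Prop :=
  ∃ g : Polynomial ℂ, ∑ j, Polynomial.C (φ (Pi.single j 1)) * x j = Polynomial.X ^ k * g ∧
    g.eval 0 ≠ 0

/-- The multiplicities of the cover `X` are at least `m`: whenever a polynomial curve `x (t)` in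
projective space, `x (0) ≠ 0`, meets the hyperplanes `ℓ i = 0` at `t = 0` with the multiplicities
`v i`, not all of them `0`, and these multiplicities are compatible with the equations
`y k ^ m k = ∏ i, ℓ i (x) ^ e k i` of `X`, at least one of them is at least `m`. -/
def Multiplicities {n q r : ℕ} (X : Cover n q r) (m : ℕ) : Prop :=
  ∀ (x : Fin (n + 1) → Polynomial ℂ) (v : Fin q → ℕ), (∃ j, (x j).eval 0 ≠ 0) →
    (∀ i, Meets x (X.ℓ i) (v i)) → v ≠ 0 → (∀ k, X.m k ∣ ∑ i, X.e k i * v i) → ∃ i, m ≤ v i

/-- The arrangement consists of the `n + 2` hyperplanes `ℓ (c j) = 0`, which are in general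
position: each `n + 1` of the forms are linearly independent. Hyperplanes may be listed several
times. -/
def GeneralPosition {n q : ℕ} (ℓ : Fin q → Form n) (c : Fin (n + 2) → Fin q) : Prop :=
  (∀ j : Fin (n + 2), LinearIndependent ℂ fun a => ℓ (c (j.succAbove a))) ∧
    ∀ i, ∃ (j : Fin (n + 2)) (t : ℂ), ℓ i = t • ℓ (c j)

open scoped Classical in
/-- The multiplicity `n + 2` is attained for each of the hyperplanes: for each `j` the multiplicities
`n + 2` for the hyperplane `ℓ (c j) = 0` and `0` for the others are compatible with the equations of
`X`. -/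
def Attained {n q r : ℕ} (X : Cover n q r) (c : Fin (n + 2) → Fin q) : Prop :=
  ∀ j k, X.m k ∣ ∑ i, X.e k i * (if ∃ t : ℂ, X.ℓ i = t • X.ℓ (c j) then n + 2 else 0)

/-- `ω` is a regular `m`-canonical form: a section of `m K` for the smooth projective models of
`K`. -/
def IsRegularForm {K : Type} [Field K] [Algebra ℂ K] (n m : ℕ)
    (ω : (Fin n → Derivation ℂ K K) → K) : Prop :=
  IsPluri m ω ∧ ∀ P : Place ℂ K, Divisorial n P → RegAt P ω

/-- **Abundance with an explicit index for all abelian covers of projective space with multiplicities
at least `n + 2`.** Let `X` be an abelian cover of projective `n`-space, `n ≥ 1`, over an arbitrary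
arrangement of hyperplanes, with multiplicities at least `n + 2` and with function field `K`. Then one
of the following holds. The arrangement is reducible, `X` is ruled and the canonical bundle is not
pseudo-effective. The arrangement consists of `n + 2` hyperplanes in general position, the
multiplicity `n + 2` is attained for each of them, there is a nonzero regular `(n + 2)`-canonical form,
two regular `m`-canonical forms are proportional for all `m ≥ 1`, and `ν ≤ 0`. In all other cases `X`
is of general type. -/
theorem result (n q r : ℕ) (hn : 1 ≤ n) (X : Cover n q r) (hX : X.Free)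
    (hm : Multiplicities X (n + 2)) (K : Type) [Field K] [Algebra ℂ K] (x : Fin (n + 1) → K)
    (y : Fin r → K) (hK : X.FunctionField K x y) :
    (Reducible X.ℓ ∧ Ruled ℂ K ∧ ¬ Psef ℂ K n (fun _ => False)) ∨
      (¬ Reducible X.ℓ ∧ (∃ c, GeneralPosition X.ℓ c ∧ Attained X c) ∧
        (∃ ω : (Fin n → Derivation ℂ K K) → K, IsRegularForm n (n + 2) ω ∧ ∃ D, ω D ≠ 0) ∧
        (∀ m : ℕ, 1 ≤ m → ∀ ω₁ ω₂ : (Fin n → Derivation ℂ K K) → K, IsRegularForm n m ω₁ →
          IsRegularForm n m ω₂ → ∃ a b : ℂ, (a ≠ 0 ∨ b ≠ 0) ∧ ∀ D, a • ω₁ D + b • ω₂ D = 0) ∧
        Pool.Agent.W619.TW.NumLe ℂ K n (fun _ => False) 0) ∨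
      (¬ Reducible X.ℓ ∧ (¬ ∃ c, GeneralPosition X.ℓ c ∧ Attained X c) ∧ GeneralType ℂ K n) := by
  rcases Pool.Agent.TH122.PA.trichotomyG2 hn X hX hK hm with h | ⟨hr, hc, -, hν⟩ | h
  · exact Or.inl h
  · refine Or.inr (Or.inl ⟨hr, hc, ?_, ?_, hν⟩)
    · obtain ⟨h1, h2, h3⟩ := Pool.Agent.TH152.AC.coords X hK
      obtain ⟨c, hc, -⟩ := hc
      obtain ⟨ω, h4, h5, h6⟩ := Pool.Agent.U188.ARR.section_exists X.hℓ hc h1 h2 h3
        (fun P _ => Pool.Agent.TH122.PA.highAt_of_germ X hX hK
          (Pool.Agent.W392.CG.span_top hn X.ℓ hr) hm P)
      exact ⟨ω, ⟨h4, h5⟩, h6⟩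
    · intro m hm1 ω₁ ω₂ h₁ h₂
      obtain ⟨h1, h2, h3⟩ := Pool.Agent.TH152.AC.coords X hK
      exact Pool.Agent.U188.ARR.prop_of_num h3 hν hm1 h₁.1 h₁.2 h₂.1 h₂.2
  · exact Or.inr (Or.inr h)

end Pool.Agent.Results.MP_5ff3c6_ag.AllArrangementCovers
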