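import Pool.Agent.R887.ExpD
import Pool.Agent.R887.NefP
import Pool.Agent.U379.Plur

/-!
# Varieties which are dominated by a correspondence from a variety with explicitly bounded canonical
divisor: explicit bounds for the positive products of the canonical divisor, and a gap

The function-field language of the starting repository is used (`Pool/Agent/R887/Defs*.lean`): a
normal projective variety of dimension `n` is given by the homogeneous coordinates `y` of its
generic point (`NormalModel`).  `CanonicalLe y' n S s a` says that `a H' - s (K_X' + S)` is linearly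
equivalent to an effective divisor, `H'` being a hyperplane section of `X'` and `S` a set of prime
divisors of `X'` (with multiplicity one).

A *correspondence* `X' ← X'' → X` is a variety `X''` (function field `L`) with a generically finite
rational map `p : X'' ⇢ X'` (`ψ = p^*`), unramified over the prime divisors of `X'` which are not in
`S`, and a dominant rational map `f : X'' ⇢ X` (`φ = f^*`).  `MultiDegreeLe φ ψ y y' (n - j) j c`
says that the intersection number of `n - j` pull backs by `f` of hyperplane sections of `X` and
of `j` pull backs by `p` of hyperplane sections of `X'` is at most `c deg f`.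
-/

set_option autoImplicit false

open FF Pool.Agent.W602.GT Pool.Agent.Y172 Pool.Agent.R887

/-- Let `X` be a normal projective variety of dimension `n ≥ 1` with canonical (for instance
terminal) singularities, `X'` a normal projective variety of dimension `n`, `S` a set of prime
divisors of `X'`, and `s ≥ 1`, `a ≥ 0` integers with `s (K_X' + S) ≤ a H'` (up to linear
equivalence).  Let `X' ← X'' → X` be a correspondence which is unramified over the prime divisors of
`X'` outside of `S`.

(1) For all `j ≤ n`: if the intersection number of `n - j` pull backs of hyperplane sections of `X`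
and `j` pull backs of hyperplane sections of `X'` is at most `c deg f`, then the positive product
`⟨K_X ^ j⟩ · H ^ (n - j)` is at most `c (a / s) ^ j`.

(2) Suppose that `X` is a minimal variety, that is, `K_X` is nef, and that `r K_X` is Cartier,
`r ≥ 1`.  If for `j = 1` the number `c` satisfies `c a r < s` then `K_X` is numerically trivial (its
numerical dimension for the positive products is less than one), all sections `η ≠ 0` of `m K_X`,
`m ≥ 1`, have no zeros, and there is a natural number `d` such that for all `m ≥ 1` the plurigenus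
`h⁰ (m K_X)` is one if `d` divides `m` and zero otherwise.  If `d = 0`, that is, if all plurigenera
are zero, then the Kodaira dimension is `⊥`.  If `d ≥ 1` then `d K_X` is trivial and abundance holds
for `X` in the strong form: the Kodaira dimension is zero, and the numerical dimension, the growth of
`h⁰ (m K_X + A)`, is zero for all effective integral divisors `A`. -/
theorem Pool.Agent.Results.MP_5ff3c6_ag.ExplicitDegreeGap.result
    {K K' L : Type} [Field K] [Algebra ℂ K] [Field K'] [Algebra ℂ K'] [Field L] [Algebra ℂ L]
    {N N' n : ℕ} {y : Fin (N + 1) → K} {y' : Fin (N' + 1) → K'}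
    (hy : NormalModel y) (hn : Algebra.trdeg ℂ K = n) (hcan : Canonical y n)
    (hy' : NormalModel y') (hn' : Algebra.trdeg ℂ K' = n) (hn0 : 0 < n)
    {S : Set (Place ℂ K')} {s a : ℕ} (hs : 1 ≤ s) (hcl : CanonicalLe y' n S s a)
    (φ : K →ₐ[ℂ] L) (ψ : K' →ₐ[ℂ] L) (hψ : FiniteDimensional ψ.fieldRange L)
    (hun : UnramifiedOutside ψ y' S) :
    (∀ j : ℕ, j ≤ n → ∀ c : ℝ, MultiDegreeLe φ ψ y y' (n - j) j c →
      0 ≤ c ∧ PositiveProductLe y n 0 j (c * (a / s) ^ j)) ∧
    (CanonicalNef y n → ∀ r : ℕ, 1 ≤ r → CartierIndex y n 0 r →
      ∀ c : ℝ, MultiDegreeLe φ ψ y y' (n - 1) 1 c → c * (a * r) < s →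
      NumDimLt y n 0 1 ∧
        (∀ m : ℕ, 1 ≤ m → ∀ η : (Fin n → Derivation ℂ K K) → K, IsSection y n m 0 η → η ≠ 0 →
          ∀ P, IsPrimeDivisor y P → OrdEq P η 0) ∧
        ∃ d : ℕ, (∀ m : ℕ, 1 ≤ m → h0 y n m 0 = if d ∣ m then 1 else 0) ∧
          (d = 0 → kodairaDim y n 0 = ⊥) ∧
          (d ≠ 0 → kodairaDim y n 0 = ((0 : ℕ) : WithBot ℕ) ∧
            ∀ A, Effective y A → Integral y A → numericalDim y n 0 A = ((0 : ℕ) : EReal))) := by
  have hpb := hcan.multi hy hy' hn hn' φ ψ hψ S
  refine ⟨fun j hj c hc => explicit_product hy' hn' hn0 hs hcl hy hn hcan.lc φ ψ hψ hun hpb hj hc,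
    fun hnef r hr hcar c hc hlt => ?_⟩
  have h1 : NumDimLt y n 0 1 := explicit_gap hy' hn' hn0 hs hcl hy hn hcan.lc φ ψ hψ hun hpb hr
    hcar hnef.logNef hc hlt
  have h3 : ∀ m : ℕ, 1 ≤ m → ∀ η : (Fin n → Derivation ℂ K K) → K, IsSection y n m 0 η →
      η ≠ 0 → ∀ P, IsPrimeDivisor y P → OrdEq P η 0 := by
    intro m hm η hη hη0 P hP
    have hs' : IsSection y n m (m • (0 : Place ℂ K → ℚ)) η := by rwa [smul_zero]
    have h2 := nef_trivialP hy hn hn0 h1 hnef.logNef hm hs' hη0 P hP
    rwa [Pi.zero_apply, mul_zero, neg_zero] at h2
  exact ⟨h1, h3, Pool.Agent.U379.plurigenera hy hn hn0 h3⟩
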