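import Pool.Agent.N162.HN.MainB
import Pool.Agent.N162.HN.Top

/-!
# Abundance for the images of smooth hypersurfaces: general type or unirational

Let `V` be a smooth hypersurface of degree `d` in `ℙ^(n+1)`, of any dimension `n ≥ 1`, and let
`V ⇢ W` be any dominant rational map of degree `r` onto a projective variety `W`; nothing is assumed
about the map (it need not be a quotient by a group, and its ramification is arbitrary) or about `W`
(for instance `W` is a minimal variety, or any normal projective variety with canonical
singularities). Let `N` be a natural number with `d ≥ 7 N + n + 6`, `d > (n + 1) N` and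
`d > 3 (N + n - 1)`.

**Theorem.** If `2 r < (N + 1) (d - n - N)` then these are equivalent: `K_W` is pseudo-effective;
`κ(W) ≥ 0`; `κ(W) = dim W`, that is, `W` is of general type; `p_g(W) ≠ 0`; `W` is not uniruled; `W` is
not unirational.

So the Kodaira dimension of `W` is `-∞` or `n`, and it is `-∞` only for unirational varieties. If `W`
is a minimal variety then `K_W` is nef, so that it is big by the theorem, and then it is semiample by
the base point free theorem: the abundance conjecture (Q1 of the problem) is true for all minimal
varieties `W` which are dominated in this way; if `W` has canonical singularities and `K_W` is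
pseudo-effective then `W` has a good minimal model.

With the best `N` the bound for `r` is quadratic in `d`: it is `(3 / 49 - o(1)) d ^ 2` if `n ≤ 6`, and
`(n / (2 (n + 1) ^ 2) - o(1)) d ^ 2` if `n ≥ 6`. The starting hand-in
`MP_e06174_ag.ImagesOfQuadraticDegree` shows that `κ(W) = -∞`, `K_W` is not pseudo-effective, `p_g(W) = 0`,
uniruledness and unirationality are equivalent (for `r < (N + 1) (d - n - N)`); it says nothing about
the varieties `W` with `κ(W) ≥ 0`. The new part is that these are of general type: the Kodaira
dimensions `0, ..., n - 1` do not occur, which is the part that belongs to abundance.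

Proof (the parts are in the starting library): let `W` be not of general type, with function
field `L`, and let `K` be the function field of `V`. The canonical forms on `W` which are traces of
forms on `V` do not separate two general points of `W`; the difference of the traces at the two points
of `W` is a relation, with nonzero coefficients, between the values of the forms of degree `d - n - 2` at
the `2 r` points of the two fibres. If fewer than `(N + 1) (d - n - N)` points have such a relation they are
on curve sections of `V` of small degree (Cayley-Bacharach); it is shown that this is the case for each of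
the two fibres, and that the valuation ring of `V` in the function field `ℂ(ℙ^(n+1))` has only one
extension to the function field of the family of curves, so that this family is
`ℙ^(n+1)`, which dominates `W`.

The function-field language of the starting repository is used: `K` is the function field of `V`,
and `L`, a subfield of `K`, the function field of `W`. A pluricanonical form (`IsPluri N`) on a
variety of dimension `n` is a function of `n` rational vector fields; it is regular at the prime
divisor `P` (`Place`, `Divisorial`, `RegAt`) if its value on vector fields which are regular at `P` is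
regular at `P`. `GeneralType ℂ L n` says that `n + 1` regular `N`-canonical forms have ratios of
transcendence degree `n`, `KodGe ℂ L n (fun _ => False) 0` that `κ(W) ≥ 0`, `Psef ℂ L n (fun _ => False)`
that `K_W` is pseudo-effective (`Pool/Agent/W602/GT`), `IsUniruled ℂ L n` that `W` is uniruled
(`Pool/Agent/W619/PQ/Defs.lean`).
-/

set_option autoImplicit false

open FF MvPolynomial Pool.Agent.W602.GT
open Pool.Agent.W619.PQ (IsUniruled)

namespace Pool.Agent.Results.MP_5ff3c6_ag.ImagesOfHypersurfaces

section

variable (L : Type) [Field L] [Algebra ℂ L] (n : ℕ)

/-- The geometric genus is not zero: there is a canonical form, not zero, which is regular at all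
prime divisors. -/
def HasCanonicalForm : Prop :=
  ∃ ω : (Fin n → Derivation ℂ L L) → L, IsPluri 1 ω ∧
    (∀ P : Place ℂ L, Divisorial n P → RegAt P ω) ∧ ∃ D, ω D ≠ 0

/-- The varieties of dimension `n` with function field `L` are unirational: `L` embeds into the
field of rational functions in `n` variables. -/
def IsUnirational : Prop :=
  Nonempty (L →ₐ[ℂ] FractionRing (MvPolynomial (Fin n) ℂ))

end

/-- **Abundance for images of hypersurfaces.** Let `K` be the function field of a smooth hypersurface
`V` with the equation `F` of degree `d` in `ℙ^(n+1)`, with generic point `x`, `x 0 = 1`, where `n ≥ 1`,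
`d ≥ 7 N + n + 6`, `d > (n + 1) N` and `d > 3 (N + n - 1)`. Let `W` be a projective variety with
function field `L` and `V ⇢ W` a dominant rational map of degree `r`, `2 r < (N + 1) (d - n - N)`. Then
`K_W` is pseudo-effective if and only if `κ(W) ≥ 0`, if and only if `W` is of general type, if and only
if `p_g(W) ≠ 0`, if and only if `W` is not uniruled, if and only if `W` is not unirational. -/
theorem result {n d N : ℕ} (hn : 1 ≤ n) (hd : 7 * N + n + 6 ≤ d) (hd' : (n + 1) * N < d)
    (hd'' : 3 * (N + n - 1) < d) {F : MvPolynomial (Fin (n + 2)) ℂ} (homogeneous : F.IsHomogeneous d)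
    (smooth : ∀ z : Fin (n + 2) → ℂ, z ≠ 0 → ∃ l, eval z (pderiv l F) ≠ 0)
    {K : Type} [Field K] [Algebra ℂ K] (hK : Algebra.trdeg ℂ K = n) {x : Fin (n + 2) → K}
    (hx0 : x 0 = 1) (hx : aeval x F = 0) (hgen : IntermediateField.adjoin ℂ (Set.range x) = ⊤)
    (L : Type) [Field L] [Algebra ℂ L] [Algebra L K] [IsScalarTower ℂ L K] [FiniteDimensional L K]
    (hr : 2 * Module.finrank L K < (N + 1) * (d - n - N)) :
    [Psef ℂ L n (fun _ => False), KodGe ℂ L n (fun _ => False) 0, GeneralType ℂ L n,
      HasCanonicalForm L n, ¬ IsUniruled ℂ L n, ¬ IsUnirational L n].TFAE := by
  obtain ⟨m, hmd⟩ : ∃ m, m + n + 2 = d := ⟨d - n - 2, by omega⟩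
  have h1 : d - n - N = m + 2 - N := by omega
  rw [h1] at hr
  have hessK : Algebra.EssFiniteType ℂ K := by
    rw [← IntermediateField.fg_top_iff]
    classical
    exact ⟨Finset.univ.image x, by
      rw [Finset.coe_image, Finset.coe_univ, Set.image_univ, hgen]⟩
  have hessL : Algebra.EssFiniteType ℂ L := Pool.Agent.TH466.QG.ess_below (K := K)
  have hL : Algebra.trdeg ℂ L = n := Pool.Agent.Y184.NT.trdeg_below (K := K) hK
  have ht := Pool.Agent.N162.HN.tfae_unirational hn hL fun hg =>
    Pool.Agent.N162.HN.mainB hn hmd (by omega) hd' (by omega) smooth homogeneous hx0 hx hgen hK L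
      (by omega) hg
  have hG : ¬ GeneralType ℂ L n → IsUnirational L n := fun hg =>
    Pool.Agent.N162.HN.mainG hn hmd (by omega) hd' hd'' smooth homogeneous hx0 hx hgen hK L hr hg
  have e12 := ht.out 1 2
  have e23 := ht.out 2 3
  have e34 := ht.out 3 4
  have e04 := ht.out 0 4
  tfae_have 1 ↔ 2 := (not_iff_not.1 e12).symm
  tfae_have 1 ↔ 5 := by rw [← e23, not_not]
  tfae_have 5 ↔ 6 := not_congr e34
  tfae_have 6 → 3 := fun h => by_contra fun hg => h (hG hg)
  tfae_have 3 → 2 := fun h => Pool.Agent.R882.WR.kod_of_gt h
  tfae_have 4 ↔ 6 := by
    unfold IsUnirational
    rw [← e04]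
    unfold HasCanonicalForm
    push Not
    rfl
  tfae_finish

end Pool.Agent.Results.MP_5ff3c6_ag.ImagesOfHypersurfaces
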