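import Pool.Agent.U188.IndexFree

/-!
# Freeness of `r K` at the Cartier index on toroidal models of covers of products of projective spaces

**The varieties.** Let `F i` be a form of degree `d i` in `n i + 1` variables whose zero set in the
projective `n i`-space is a smooth hypersurface, and let `H i` be the cyclic hypersurface
`w ^ (d i) = F i` in the projective `(n i + 1)`-space. Let `Y` be a quotient
`(H 1 × ... × H r) / G`, where `G` is any group of diagonal automorphisms
`w i ↦ ζ i * w i`, `ζ i ^ (d i) = 1`. Equivalently, the function field `K` of `Y` is generated by the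
affine coordinates `x i j / x i 0` of the product of the projective `n i`-spaces and by roots `z j`,
`z j ^ (m j) = ∏ i, (F i (x i) / x i 0 ^ (d i)) ^ (a j i)`, where `m j` divides `a j i * d i`. There is
no condition on the dimensions and the degrees. The toroidal modifications `X` of `Y` are given by the
subdivisions of the positive orthant into rational polyhedral cones (`IsFan`: the maximal cones,
generated by vectors which are `Admissible`, the nonzero lattice points of the orthant).

**The pairs.** A toroidal pair `(X, Δ)` is given by its log discrepancies: `1 - c v` at the toroidal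
divisor with the multiplicities `v`, a function which is linear on the cones,
`1 - c v = ∑ k, u σ k * v k` on the cone `σ` (`K_X + Δ` is `ℚ`-Cartier), and `c s` is the coefficient
of `Δ` at the prime divisor of `X` which belongs to a primitive generator `s` of a ray. For `Δ = 0` we
have `c s = 0` for these `s`, and `X` has terminal singularities if and only if `c v < 0` for all other
primitive lattice points `v`. Nothing is assumed here about the coefficients `c s`; the pair need not be
log canonical, and `X` need not be `ℚ`-factorial. The divisor `K_X + Δ` is, up to linear equivalence,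
the divisor of the rational form `Ω = ∏ t, x t 0 ^ (n t + 1) * dx` (of degree `n t + 1` in the
coordinates of the `t`-th factor) plus `Δ`. The order of `Ω` at the toroidal divisor with the
multiplicities `v ≠ 0` is `∑ k, v k - 1 + ∑ t, (n t + 1) * minimalOrder (x t) P`; so the coefficient of
`K_X + Δ` at a prime divisor `P` over `X` (of its pullback as a `ℚ`-Cartier divisor) is
`canonicalCoefficient F d x c P`. The divisor `ρ (K_X + Δ)` is Cartier if and only if `ρ * c v` is an
integer for all admissible `v`.

**The theorem.** For every toroidal pair the following are equivalent: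
1. `K_X + Δ` is nef;
2. the finite system of linear inequalities `u σ t ≤ 1 - (n t + 1) / d t` (multiplied by `d t`) and
   `1 - c s ≤ ∑ k, u σ k * s k`, for all maximal cones `σ` and all generators `s` of all cones, is
   satisfied;
3. for every `ρ ≥ 1` for which `ρ (K_X + Δ)` is Cartier the linear system `|ρ (K_X + Δ)|` has no base
   points;
4. `|ρ (K_X + Δ)|` has no base points for some `ρ ≥ 1`: `K_X + Δ` is semiample.

So for the minimal varieties in this class the answer to the problem is positive in a strong form:
`r K_X` is base point free for every `r` for which it is Cartier, in particular if `r` is the Gorenstein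
index of `X`, independent of the dimension. `K_X` can have any numerical dimension between `0` and
`dim X` (it is nef and big only in a special case).

`Nef`: if `D` is nef, choose an ample divisor `A` such that `A + ε D` is ample for `|ε| ≤ 1`; then for
`M ≥ 1` and a suitable `j` the divisor `μ D + j A` has no base points for the integers `μ` with
`|μ - j M| ≤ j`. Conversely, if `A` is a divisor with this property, then `(μ / j) D + A` is nef, where
`|μ / j - M| ≤ 1`, so that `D` is nef (divide by `M`). Here `A` is the divisor which is generated by a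
finite set `S` of rational functions.

The library theorems of `Pool/Agent/Q57/FT/Top.lean` are used; see `Pool/Agent/U188/IndexFree.lean`.
-/

set_option autoImplicit false

open FF MvPolynomial Pool.Agent.W602.GT

namespace Pool.Agent.Results.MP_5ff3c6_ag.ToroidalCartierIndex

/-- The form `F` has no singular zeros: its partial derivatives have no common zero but `0`. -/
def Smooth {n : ℕ} (F : MvPolynomial (Fin (n + 1)) ℂ) : Prop :=
  ∀ x : Fin (n + 1) → ℂ, x ≠ 0 → ∃ l, eval x (pderiv l F) ≠ 0

section fans

variable {r R : ℕ}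

/-- The multiplicities which satisfy the divisibility conditions. -/
def Admissible (m : Fin R → ℕ) (a : Fin R → Fin r → ℕ) (v : Fin r → ℕ) : Prop :=
  v ≠ 0 ∧ ∀ j, m j ∣ ∑ i, a j i * v i

/-- The vector `v` is in the cone which is generated by the vectors in `σ`. -/
def InCone (σ : Finset (Fin r → ℕ)) (v : Fin r → ℕ) : Prop :=
  ∃ w : (Fin r → ℕ) → ℚ, (∀ s, 0 ≤ w s) ∧ ∀ k, (v k : ℚ) = ∑ s ∈ σ, w s * s k

/-- `fan` is a finite set of cones, each generated by a finite set of admissible vectors which span
the whole space, which cover all admissible vectors. -/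
structure IsFan (m : Fin R → ℕ) (a : Fin R → Fin r → ℕ) (fan : Finset (Finset (Fin r → ℕ))) :
    Prop where
  adm : ∀ σ ∈ fan, ∀ s ∈ σ, Admissible m a s
  full : ∀ σ ∈ fan, ∀ f : Fin r → ℚ, ∃ q : (Fin r → ℕ) → ℚ, ∀ k, f k = ∑ s ∈ σ, q s * s k
  cover : ∀ v, Admissible m a v → ∃ σ ∈ fan, InCone σ v

/-- The divisor `ρ (K_X + Δ)` is Cartier, where `1 - c v` are the log discrepancies: the numbers
`ρ * c v` are integers. -/
def CartierMultiple (m : Fin R → ℕ) (a : Fin R → Fin r → ℕ) (c : (Fin r → ℕ) → ℚ) (ρ : ℕ) : Prop :=
  ∀ v, Admissible m a v → ∃ z : ℤ, (ρ : ℚ) * c v = z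

end fans

section places

variable {r : ℕ} {n : Fin r → ℕ} {K : Type} [Field K] [Algebra ℂ K]

/-- The affine coordinates of the product of the projective spaces. -/
noncomputable def affine (x : ∀ i, Fin (n i + 1) → K) (b : (i : Fin r) × Fin (n i)) : K :=
  x b.1 b.2.succ / x b.1 0

/-- The minimal order at `P` of the homogeneous coordinates `y`. -/
noncomputable def minimalOrder {n : ℕ} (y : Fin (n + 1) → K) (P : Place ℂ K) : ℤ :=
  Finset.univ.inf' Finset.univ_nonempty fun j => P.ord (y j)

/-- The multiplicities of the hypersurfaces `F i = 0` along the prime divisor `P`; the `x i j` are the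
homogeneous coordinates of the `i`-th factor, which are divided by one of minimal order at `P`. -/
noncomputable def multiplicities (F : ∀ i, MvPolynomial (Fin (n i + 1)) ℂ) (d : Fin r → ℕ)
    (x : ∀ i, Fin (n i + 1) → K) (P : Place ℂ K) (i : Fin r) : ℕ :=
  (P.ord (aeval (x i) (F i)) - d i * minimalOrder (x i) P).toNat

/-- The coefficient at the prime divisor `P` of the pullback of `K_X + Δ`, where `1 - c v` are the log
discrepancies of the toroidal pair: it is `∑ k, v k - (1 - c v)` (zero for `v = 0`), `v` the
multiplicities, minus `n t + 1` times the coefficient `- minimalOrder (x t) P` of the hyperplane class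
of the `t`-th factor, for all `t`. -/
noncomputable def canonicalCoefficient (F : ∀ i, MvPolynomial (Fin (n i + 1)) ℂ) (d : Fin r → ℕ)
    (x : ∀ i, Fin (n i + 1) → K) (c : (Fin r → ℕ) → ℚ) (P : Place ℂ K) : ℚ :=
  (if multiplicities F d x P = 0 then 0
    else ∑ k, (multiplicities F d x P k : ℚ) - (1 - c (multiplicities F d x P))) +
    ∑ t, ((n t : ℚ) + 1) * minimalOrder (x t) P

end places

section divisors

variable {K : Type} [Field K] [Algebra ℂ K] (N : ℕ) (δ : Place ℂ K → ℚ)

/-- The linear system `|μ D|`, `D` the divisor with the coefficients `δ P`, has no base points: for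
every prime divisor `P` over `X` (every divisorial place `P` of `K`) there is a section `f ≠ 0` of
`μ D` (the order of `f` at every `Q` is at least `- μ * δ Q`) which does not vanish at `P` (its order at
`P` is at most `- μ * δ P`). -/
def BasePointFree (μ : ℤ) : Prop :=
  ∀ P : Place ℂ K, Divisorial N P → ∃ f : K, f ≠ 0 ∧
    (∀ Q : Place ℂ K, Divisorial N Q → - (μ * δ Q) ≤ Q.ord f) ∧ (P.ord f : ℚ) ≤ - (μ * δ P)

/-- The divisor `D` with the coefficients `δ P` is nef: there is a divisor `A`, generated by a finite
set `S` of functions (its coefficient at `P` is the maximum of the numbers `- P.ord s`, `s ∈ S`,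
`s ≠ 0`), such that for every `M ≥ 1` there is `j ≥ 1` such that for every prime divisor `P` over `X`
there are an integer `μ` with `|μ - j M| ≤ j` and a section of `μ D + j A` which does not vanish
at `P`. -/
def Nef : Prop :=
  ∃ S : Finset K, (∃ s ∈ S, s ≠ 0) ∧ ∀ M : ℕ, 1 ≤ M → ∃ j : ℕ, 1 ≤ j ∧
    ∀ P : Place ℂ K, Divisorial N P → ∃ μ : ℤ, |(μ : ℝ) - j * M| ≤ j ∧
      ∃ f : K, f ≠ 0 ∧
        (∀ Q : Place ℂ K, Divisorial N Q → ∃ s ∈ S, s ≠ 0 ∧ j * Q.ord s - μ * δ Q ≤ Q.ord f) ∧
        ∀ s ∈ S, s ≠ 0 → (P.ord f : ℚ) ≤ j * P.ord s - μ * δ P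

end divisors

/-- **Freeness at the Cartier index.** Let `K` be the function field of an abelian cover `Y` of the
product of the projective `n i`-spaces which is branched along smooth hypersurfaces `F i = 0` of the
factors, `X` the toroidal modification of `Y` which is given by `fan`, and `(X, Δ)` the toroidal pair
with the log discrepancies `1 - c v`, which are the linear functions `∑ k, u σ k * v k` on the cones
`σ`. The following are equivalent: `K_X + Δ` is nef; the inequalities; `|ρ (K_X + Δ)|` has no base
points for every `ρ ≥ 1` for which `ρ (K_X + Δ)` is Cartier; `|ρ (K_X + Δ)|` has no base points for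
some `ρ ≥ 1`. -/
theorem result (r N R : ℕ) (n d : Fin r → ℕ) (hr : 1 ≤ r) (hn : ∀ i, 1 ≤ n i)
    (hd : ∀ i, 1 ≤ d i) (hN : N = ∑ i, n i)
    (F : ∀ i, MvPolynomial (Fin (n i + 1)) ℂ) (hF : ∀ i, (F i).IsHomogeneous (d i))
    (hs : ∀ i, Smooth (F i)) (m : Fin R → ℕ) (hm : ∀ j, 1 ≤ m j) (a : Fin R → Fin r → ℕ)
    (hdiv : ∀ j i, m j ∣ a j i * d i)
    (K : Type) [Field K] [Algebra ℂ K] (x : ∀ i, Fin (n i + 1) → K) (hx0 : ∀ i, x i 0 ≠ 0)
    (hbas : IsTranscendenceBasis ℂ (affine x)) (z : Fin R → K)
    (hz : ∀ j, z j ^ m j = ∏ i, (aeval (x i) (F i) / x i 0 ^ d i) ^ a j i)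
    (hgen : IntermediateField.adjoin ℂ (Set.range (affine x) ∪ Set.range z) = ⊤)
    (fan : Finset (Finset (Fin r → ℕ))) (hfan : IsFan m a fan)
    (c : (Fin r → ℕ) → ℚ) (u : Finset (Fin r → ℕ) → Fin r → ℚ)
    (hlin : ∀ σ ∈ fan, ∀ v, Admissible m a v → InCone σ v → 1 - c v = ∑ k, u σ k * v k)
    (δ : Place ℂ K → ℚ) (hδ : ∀ P, δ P = canonicalCoefficient F d x c P) :
    [Nef N δ,
      ∀ σ ∈ fan, (∀ t, (d t : ℚ) * u σ t ≤ (d t : ℚ) - n t - 1) ∧
        ∀ τ ∈ fan, ∀ s ∈ τ, 1 - c s ≤ ∑ k, u σ k * (s k : ℚ),
      ∀ ρ : ℕ, 1 ≤ ρ → CartierMultiple m a c ρ → BasePointFree N δ ρ,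
      ∃ ρ : ℕ, 1 ≤ ρ ∧ BasePointFree N δ ρ].TFAE := by
  have hmain := Pool.Agent.U188.IndexFree.main (N := N) hr hn hN hd hF hs hx0 hbas hm hdiv hz hgen
    (S := fan) ⟨hfan.adm, hfan.full, hfan.cover⟩ (c := c) (u := u) hlin (δ := δ) (fun P => by
      rw [hδ]
      unfold canonicalCoefficient
      change _ = (if multiplicities F d x P = 0 then 0
        else ∑ k, (multiplicities F d x P k : ℚ) - (1 - c (multiplicities F d x P))) -
        ∑ t, ((-((n t : ℤ) + 1) : ℤ) : ℚ) * minimalOrder (x t) P
      have h1 : ∑ t, ((-((n t : ℤ) + 1) : ℤ) : ℚ) * minimalOrder (x t) P =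
          - ∑ t, ((n t : ℚ) + 1) * minimalOrder (x t) P := by
        rw [← Finset.sum_neg_distrib]
        refine Finset.sum_congr rfl fun t _ => ?_
        push_cast
        ring
      rw [h1, sub_neg_eq_add])
  have hbpf : ∀ ρ : ℕ, Pool.Agent.Q57.FT.Bpf N (fun _ : Fin 1 => δ) (fun _ => (ρ : ℤ)) ↔
      BasePointFree N δ ρ := by
    intro ρ
    unfold Pool.Agent.Q57.FT.Bpf Pool.Agent.Q57.FT.ZSec BasePointFree
    simp only [Fin.sum_univ_one]
    refine forall₂_congr fun P _ => exists_congr fun f => ?_
    constructor
    · rintro ⟨h0, h1, h2⟩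
      exact ⟨h0, fun Q hQ => (h1 Q hQ).resolve_left h0, h2⟩
    · rintro ⟨h0, h1, h2⟩
      exact ⟨h0, fun Q hQ => Or.inr (h1 Q hQ), h2⟩
  have hnef : Pool.Agent.Q57.FT.NefZ N (fun _ : Fin 1 => δ) (fun _ => 1) ↔ Nef N δ := by
    unfold Pool.Agent.Q57.FT.NefZ Pool.Agent.Q57.FT.ZSecA Nef
    simp only [Fin.sum_univ_one, mul_one]
    refine exists_congr fun S => and_congr Iff.rfl (forall₂_congr fun M _ => exists_congr fun j =>
      and_congr Iff.rfl (forall₂_congr fun P _ => ?_))
    constructor
    · rintro ⟨μ, hμ, f, h0, h1, h2⟩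
      exact ⟨μ 0, hμ 0, f, h0, fun Q hQ => (h1 Q hQ).resolve_left h0, h2⟩
    · rintro ⟨μ, hμ, f, h0, h1, h2⟩
      exact ⟨fun _ => μ, fun _ => hμ, f, h0, fun Q hQ => Or.inr (h1 Q hQ), h2⟩
  simp only [hbpf, hnef] at hmain
  exact hmain

end Pool.Agent.Results.MP_5ff3c6_ag.ToroidalCartierIndex
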